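import Pool.Agent.Helper67_DEN.Filt

/-!
# CAR: the Cartan component of `u e_{-β}` for `u ∈ U_l` of height at least `ht β`
-/

namespace Pool.Agent.DEN.H81

open Pool.Agent.DEN Pool.Agent.DEN.H67

section
variable {r : ℕ} {C : Matrix (Fin r) (Fin r) ℤ} {K : Type} [Field K]

theorem EE_fst (β : Rt C) : (EE (K := K) β).1 = 0 := rfl

theorem EE_self (β : Rt C) : (EE (K := K) β).2 β = 1 := by
  simp [EE]

theorem EE_ne {β γ : Rt C} (h : γ ≠ β) : (EE (K := K) β).2 γ = 0 := by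
  simp [EE, h]

/-- a root is not both positive and negative -/
theorem not_pos_neg {β : Rt C} (h : β.Pos) : ¬ β.neg.Pos := by
  intro h2
  have h3 := one_le_ht h
  have h4 := one_le_ht h2
  rw [ht_neg] at h4
  omega

/-- a root is nonzero in `F` -/
theorem prim (hS : RootSignStmt) (hC : SimplyLaced C) (β : Rt C) :
    ∃ i, ((β.1 i : ℤ) : FF K) ≠ 0 := by
  by_contra hcon
  push Not at hcon
  obtain ⟨p, hp⟩ := CharP.exists (FF K)
  have h1 : ∀ i, ∃ y : ℤ, β.1 i = (p : ℤ) * y := by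
    intro i
    have := (CharP.intCast_eq_zero_iff (FF K) p (β.1 i)).1 (hcon i)
    exact this
  choose y hy using h1
  have h2 : β.1 = (p : ℤ) • y := funext fun i => by simp [hy i]
  have h3 := β.2
  rw [h2, ip_smul_left, ip_smul_right] at h3
  obtain ⟨m, hm⟩ := (hS r C hC).2.1 y
  rw [hm] at h3
  have h4 : (p : ℤ) * (p * m) = 1 := by linarith
  have h5 : (p : ℤ) ∣ 1 := ⟨_, h4.symm⟩
  have h6 : p = 1 := by
    have := Int.natAbs_dvd_natAbs.2 h5
    simpa using this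
  exact CharP.ringChar_ne_one (R := FF K) (by
    have := ringChar.eq (FF K) p
    rw [this, h6])

/-- the vectors with components in the Borel subalgebra -/
def Bor (v : LieV C (FF K)) : Prop := ∀ γ : Rt C, ¬ γ.Pos → v.2 γ = 0

theorem Bor.add {v w : LieV C (FF K)} (hv : Bor v) (hw : Bor w) : Bor (v + w) := by
  intro γ hγ
  rw [Prod.snd_add, Pi.add_apply, hv γ hγ, hw γ hγ, add_zero]

theorem Bor.neg {v : LieV C (FF K)} (hv : Bor v) : Bor (-v) := by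
  intro γ hγ
  rw [Prod.snd_neg, Pi.neg_apply, hv γ hγ, neg_zero]

theorem bor_root (_ : RootSignStmt) (hC : SimplyLaced C) {γ : Rt C} (hγ : γ.Pos) (a : FF K)
    {v : LieV C (FF K)} (hv : Bor v) :
    Bor (rootMap γ a v) ∧ (rootMap γ a v).1 = v.1 := by
  constructor
  · intro δ hδ
    have h1 : δ ≠ γ := by
      rintro rfl
      exact hδ hγ
    by_cases h2 : ip C γ.1 δ.1 = 1
    · rw [rootMap_snd_one _ _ _ _ h2, hv δ hδ]
      have h3 : ip C (δ.1 - γ.1) (δ.1 - γ.1) = 2 := by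
        apply hC.ip_sub_self
        rw [hC.ip_comm]; exact h2
      rw [crd_of _ h3, hv ⟨δ.1 - γ.1, h3⟩, mul_zero, add_zero]
      intro h4
      apply hδ
      intro i
      have h5 := h4 i
      have h6 := hγ i
      simp only [Pi.sub_apply] at h5
      omega
    · rw [rootMap_snd_other _ _ _ _ h1 h2, hv δ hδ]
  · funext i
    rw [rootMap_fst, hv γ.neg (not_pos_neg hγ)]
    ring

/-- the group generated by the root elements for the roots in `T` -/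
noncomputable def GT (K : Type) [Field K] (hC : SimplyLaced C) (T : Set (Rt C)) : Subgroup (grp C K) :=
  Subgroup.closure {g | ∃ γ ∈ T, ∃ a : FF K, g = xg hC γ a}

theorem mem_GT (hC : SimplyLaced C) {T : Set (Rt C)} {γ : Rt C} (h : γ ∈ T) (a : FF K) :
    xg hC γ a ∈ GT K hC T := Subgroup.subset_closure ⟨γ, h, a, rfl⟩

theorem GT_mono (hC : SimplyLaced C) {T T' : Set (Rt C)} (h : T ⊆ T') :
    GT K hC T ≤ GT K hC T' := by
  apply Subgroup.closure_mono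
  rintro g ⟨γ, hγ, a, rfl⟩
  exact ⟨γ, h hγ, a, rfl⟩

theorem bor_GT (hS : RootSignStmt) (hC : SimplyLaced C) {T : Set (Rt C)}
    (hT : ∀ γ ∈ T, γ.Pos) : ∀ s ∈ GT K hC T, ∀ v : LieV C (FF K), Bor v →
      (Bor (s.1 v) ∧ (s.1 v).1 = v.1) ∧ (Bor ((s⁻¹).1 v) ∧ ((s⁻¹).1 v).1 = v.1) := by
  intro s hs
  induction hs using Subgroup.closure_induction with
  | mem x hx =>
    obtain ⟨γ, hγ, a, rfl⟩ := hx
    intro v hv
    rw [xg_inv]
    exact ⟨bor_root hS hC (hT γ hγ) a hv, bor_root hS hC (hT γ hγ) (-a) hv⟩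
  | one =>
    intro v hv
    rw [inv_one]
    exact ⟨⟨hv, rfl⟩, ⟨hv, rfl⟩⟩
  | mul x y _ _ hx hy =>
    intro v hv
    constructor
    · obtain ⟨h1, h2⟩ := (hy v hv).1
      obtain ⟨h3, h4⟩ := (hx _ h1).1
      exact ⟨h3, h4.trans h2⟩
    · rw [mul_inv_rev]
      obtain ⟨h1, h2⟩ := (hx v hv).2
      obtain ⟨h3, h4⟩ := (hy _ h1).2
      exact ⟨h3, h4.trans h2⟩
  | inv x _ hx =>
    intro v hv
    rw [inv_inv]
    exact ⟨(hx v hv).2, (hx v hv).1⟩

/-- one root element acting on `e_{-β}` -/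
theorem root_EE (hS : RootSignStmt) (hC : SimplyLaced C) {β γ : Rt C} (hγ : γ.Pos) (hβ : β.Pos)
    (hh : ht β ≤ ht γ) (a : FF K) :
    Bor (rootMap γ a (EE β.neg) - EE β.neg) ∧
    (γ ≠ β → (rootMap γ a (EE β.neg)).1 = 0) ∧
    (γ = β → ∀ i, (rootMap γ a (EE β.neg)).1 i = -(a * ((β.1 i : ℤ) : FF K))) := by
  refine ⟨?_, ?_, ?_⟩
  · intro δ hδ
    have h1 : δ ≠ γ := by
      rintro rfl
      exact hδ hγ
    rw [Prod.snd_sub, Pi.sub_apply]
    by_cases h2 : ip C γ.1 δ.1 = 1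
    · rw [rootMap_snd_one _ _ _ _ h2]
      have h3 : ip C (δ.1 - γ.1) (δ.1 - γ.1) = 2 := by
        apply hC.ip_sub_self
        rw [hC.ip_comm]; exact h2
      have hz : (EE (K := K) β.neg).2 ⟨δ.1 - γ.1, h3⟩ = 0 := by
        apply EE_ne
        intro h4
        have h5 : δ.1 - γ.1 = -β.1 := congrArg Subtype.val h4
        have h6 : γ.1 = δ.1 + β.1 := by
          have : γ.1 = δ.1 - (δ.1 - γ.1) := by abel
          rw [this, h5]; abel
        have h7 := ht_add h6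
        rcases (hS r C hC).1 δ with h8 | h8
        · exact hδ h8
        · have h9 := one_le_ht h8
          rw [ht_neg] at h9
          omega
      rw [crd_of _ h3, hz, mul_zero, add_zero, sub_self]
    · rw [rootMap_snd_other _ _ _ _ h1 h2, sub_self]
  · intro h
    funext i
    rw [rootMap_fst, EE_ne, EE_fst]
    · simp
    · intro h1
      apply h
      have := congrArg Rt.neg h1
      simpa using this
  · rintro rfl i
    rw [rootMap_fst, EE_self, EE_fst]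
    simp

theorem GT_EE (hS : RootSignStmt) (hC : SimplyLaced C) {T : Set (Rt C)}
    (hT : ∀ γ ∈ T, γ.Pos) {β : Rt C} (hβ : β.Pos) (hh : ∀ γ ∈ T, ht β ≤ ht γ) :
    ∀ u ∈ GT K hC T, Bor (u.1 (EE β.neg) - EE β.neg) ∧
      ∃ c : FF K, (β ∉ T → c = 0) ∧ ∀ i, (u.1 (EE β.neg)).1 i = -(c * ((β.1 i : ℤ) : FF K)) := by
  intro u hu
  induction hu using Subgroup.closure_induction with
  | mem x hx =>
    obtain ⟨γ, hγ, a, rfl⟩ := hx
    obtain ⟨h1, h2, h3⟩ := root_EE hS hC (hT γ hγ) hβ (hh γ hγ) a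
    refine ⟨h1, ?_⟩
    by_cases h4 : γ = β
    · refine ⟨a, fun h => absurd (h4 ▸ hγ) h, fun i => ?_⟩
      rw [xg_apply]
      exact h3 h4 i
    · refine ⟨0, fun _ => rfl, fun i => ?_⟩
      rw [xg_apply, h2 h4]
      simp
  | one =>
    refine ⟨?_, 0, fun _ => rfl, fun i => ?_⟩
    · intro γ _
      show (EE β.neg - EE β.neg : LieV C (FF K)).2 γ = 0
      rw [sub_self]; rfl
    · show (EE (K := K) β.neg).1 i = _
      rw [EE_fst]; simp
  | mul x y hx hy h1 h2 =>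
    obtain ⟨a1, c, hc, a2⟩ := h1
    obtain ⟨b1, d, hd, b2⟩ := h2
    obtain ⟨e1, e2⟩ := (bor_GT hS hC hT x hx _ b1).1
    have e : (x * y).1 (EE β.neg) = x.1 (EE β.neg) + x.1 (y.1 (EE β.neg) - EE β.neg) := by
      rw [← map_add]
      show x.1 (y.1 (EE β.neg)) = _
      congr 1
      abel
    refine ⟨?_, c + d, fun h => by rw [hc h, hd h, add_zero], fun i => ?_⟩
    · have : (x * y).1 (EE β.neg) - EE β.neg =
          (x.1 (EE β.neg) - EE β.neg) + x.1 (y.1 (EE β.neg) - EE β.neg) := by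
        rw [e]; abel
      rw [this]
      exact a1.add e1
    · rw [e, Prod.fst_add, Pi.add_apply, a2, e2, Prod.fst_sub, Pi.sub_apply, b2, EE_fst]
      simp
      ring
  | inv x hx h1 =>
    obtain ⟨a1, c, hc, a2⟩ := h1
    obtain ⟨e1, e2⟩ := (bor_GT hS hC hT x hx _ a1).2
    have e : (x⁻¹).1 (EE β.neg) = EE β.neg + -((x⁻¹).1 (x.1 (EE β.neg) - EE β.neg)) := by
      rw [map_sub]
      have h : (x⁻¹).1 (x.1 (EE β.neg)) = EE β.neg := by
        have h : (x⁻¹ * x).1 (EE β.neg) = EE β.neg := by simp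
        exact h
      rw [h]
      abel
    refine ⟨?_, -c, fun h => by rw [hc h, neg_zero], fun i => ?_⟩
    · rw [e, add_sub_cancel_left]
      exact e1.neg
    · rw [e, Prod.fst_add, Pi.add_apply, Prod.fst_neg, Pi.neg_apply, e2, Prod.fst_sub,
        Pi.sub_apply, a2, EE_fst]
      simp

/-- a root element normalizes the group of a set of roots containing the roots of greater
height -/
theorem conj_GT (hA : RelAStmt) (hB : RelBStmt) (hC : SimplyLaced C) (Φ : Set (Rt C))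
    (hΦ : ∀ β ∈ Φ, ∀ γ ∈ Φ, ∀ δ : Rt C, δ.1 = β.1 + γ.1 → δ ∈ Φ) {k : ℕ} (hk : 1 ≤ k)
    {T : Set (Rt C)} (hT : T ⊆ Φ) (hTk : ∀ γ ∈ T, (k : ℤ) ≤ ht γ)
    (hT2 : ∀ γ ∈ Φ, (k : ℤ) + 1 ≤ ht γ → γ ∈ T) {β : Rt C} (hβ : β ∈ Φ)
    (hβk : ht β = k) (a : FF K) :
    ∀ u ∈ GT K hC T, xg hC β a * u * (xg hC β a)⁻¹ ∈ GT K hC T := by
  refine conj_closure _ _ _ ?_
  rintro _ ⟨γ, hγ, b, rfl⟩
  have e : xg hC β a * xg hC γ b * (xg hC β a)⁻¹ =
      (xg hC β a * xg hC γ b * (xg hC β a)⁻¹ * (xg hC γ b)⁻¹) * xg hC γ b := by group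
  rw [e]
  refine mul_mem ?_ (mem_GT hC hγ b)
  have h1 := comm_x hA hB hC Φ hΦ hk hk hβ (hT hγ) (le_of_eq hβk.symm) (hTk γ hγ) a b
  refine (Subgroup.closure_le _).2 ?_ h1
  rintro g ⟨δ, hδ, h2, c, rfl⟩
  refine mem_GT hC (hT2 δ hδ ?_) c
  push_cast at h2
  omega

theorem peel (hA : RelAStmt) (hB : RelBStmt) (hC : SimplyLaced C) (Φ : Set (Rt C))
    (hΦ : ∀ β ∈ Φ, ∀ γ ∈ Φ, ∀ δ : Rt C, δ.1 = β.1 + γ.1 → δ ∈ Φ) {k : ℕ} (hk : 1 ≤ k)
    {T : Set (Rt C)} (hT : T ⊆ Φ) (hTk : ∀ γ ∈ T, (k : ℤ) ≤ ht γ)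
    (hT2 : ∀ γ ∈ Φ, (k : ℤ) + 1 ≤ ht γ → γ ∈ T) {β : Rt C} (hβ : β ∈ Φ)
    (hβk : ht β = k) : ∀ u ∈ GT K hC (insert β T),
      ∃ a : FF K, ∃ u' ∈ GT K hC T, u = xg hC β a * u' := by
  have hcj := fun a : FF K => conj_GT hA hB hC Φ hΦ hk hT hTk hT2 hβ hβk a
  intro u hu
  induction hu using Subgroup.closure_induction with
  | mem x hx =>
    obtain ⟨γ, hγ, b, rfl⟩ := hx
    rcases hγ with rfl | hγ
    · exact ⟨b, 1, one_mem _, by rw [mul_one]⟩
    · exact ⟨0, _, mem_GT hC hγ b, by rw [xg_zero, one_mul]⟩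
  | one => exact ⟨0, 1, one_mem _, by rw [xg_zero, one_mul]⟩
  | mul x y _ _ hx hy =>
    obtain ⟨a, x', hx', rfl⟩ := hx
    obtain ⟨b, y', hy', rfl⟩ := hy
    refine ⟨a + b, ((xg hC β (-b)) * x' * (xg hC β (-b))⁻¹) * y',
      mul_mem (hcj (-b) x' hx') hy', ?_⟩
    rw [xg_add, ← xg_inv]
    group
  | inv x _ hx =>
    obtain ⟨a, x', hx', rfl⟩ := hx
    refine ⟨-a, xg hC β a * x'⁻¹ * (xg hC β a)⁻¹, hcj a _ (inv_mem hx'), ?_⟩
    rw [← xg_inv]
    group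

theorem descend (hA : RelAStmt) (hB : RelBStmt) (hS : RootSignStmt)
    (hC : SimplyLaced C) (Φ : Set (Rt C)) (hpos : ∀ β ∈ Φ, β.Pos)
    (hΦ : ∀ β ∈ Φ, ∀ γ ∈ Φ, ∀ δ : Rt C, δ.1 = β.1 + γ.1 → δ ∈ Φ) {k : ℕ} (hk : 1 ≤ k)
    (S : Set (Rt C)) (hfin : S.Finite) : (∀ β ∈ S, β ∈ Φ ∧ ht β = k) →
    ∀ u ∈ GT K hC (S ∪ {γ | γ ∈ Φ ∧ (k : ℤ) + 1 ≤ ht γ}),
      (∀ β ∈ S, (u.1 (EE β.neg)).1 = 0) → u ∈ GT K hC {γ | γ ∈ Φ ∧ (k : ℤ) + 1 ≤ ht γ} := by
  induction S, hfin using Set.Finite.induction_on with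
  | empty =>
    intro _ u hu _
    rwa [Set.empty_union] at hu
  | @insert β S hβS _ ih =>
    intro hS1 u hu h0
    set T := S ∪ {γ | γ ∈ Φ ∧ (k : ℤ) + 1 ≤ ht γ} with hTdef
    have hTΦ : T ⊆ Φ := by
      rintro γ (h | h)
      · exact (hS1 γ (Set.mem_insert_of_mem _ h)).1
      · exact h.1
    have hTk : ∀ γ ∈ T, (k : ℤ) ≤ ht γ := by
      rintro γ (h | h)
      · exact (hS1 γ (Set.mem_insert_of_mem _ h)).2.ge
      · have := h.2
        omega
    have hβ := hS1 β (Set.mem_insert _ _)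
    have hβT : β ∉ T := by
      rintro (h | h)
      · exact hβS h
      · have := h.2
        omega
    rw [Set.insert_union] at hu
    obtain ⟨a, u', hu', rfl⟩ := peel hA hB hC Φ hΦ hk hTΦ hTk (fun γ h1 h2 => Or.inr ⟨h1, h2⟩)
      hβ.1 hβ.2 u hu
    obtain ⟨b1, c, hc, b2⟩ := GT_EE hS hC (fun γ h => hpos γ (hTΦ h)) (hpos β hβ.1)
      (fun γ h => by rw [hβ.2]; exact hTk γ h) u' hu'
    have hc0 := hc hβT
    have hx := xg_apply hC β a (EE β.neg)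
    have h3 := (root_EE hS hC (hpos β hβ.1) (hpos β hβ.1) le_rfl a).2.2 rfl
    have e : (xg hC β a * u').1 (EE β.neg) =
        rootMap β a (EE β.neg) + rootMap β a (u'.1 (EE β.neg) - EE β.neg) := by
      rw [← rootMap_add]
      show rootMap β a (u'.1 (EE β.neg)) = _
      congr 1
      abel
    have h4 : a = 0 := by
      obtain ⟨i, hi⟩ := prim (K := K) hS hC β
      have h5 := congrFun (h0 β (Set.mem_insert _ _)) i
      rw [e, Prod.fst_add, Pi.add_apply, h3, (bor_root hS hC (hpos β hβ.1) a b1).2, Prod.fst_sub,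
        Pi.sub_apply, b2, EE_fst, hc0] at h5
      simp at h5
      rcases h5 with h5 | h5
      · exact h5
      · exact absurd h5 hi
    rw [h4, xg_zero, one_mul] at h0 ⊢
    exact ih (fun γ h => hS1 γ (Set.mem_insert_of_mem _ h)) u' hu'
      (fun γ h => h0 γ (Set.mem_insert_of_mem _ h))

/-- a root with `(β, l) > 0` is positive -/
theorem pos_of_dom (hS : RootSignStmt) (hC : SimplyLaced C) {l : Fin r → ℤ} (hl : IsDom C l)
    {β : Rt C} (h : 0 < ip C β.1 l) : β.Pos := by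
  rcases (hS r C hC).1 β with h1 | h1
  · exact h1
  · exfalso
    have hne : ∃ i : Fin r, True := by
      by_contra hcon
      push Not at hcon
      have h4 : β.1 = 0 := funext fun i => (hcon i).elim
      have h5 := β.2
      rw [h4, ip_zero_left] at h5
      norm_num at h5
    obtain ⟨i, -⟩ := hne
    have h2 := (hS r C hC).2.2.2 β.neg.1 l hl h1 i
    have h3 := mul_nonneg (h1 i) (hl i)
    rw [Rt.neg_val, ip_neg_left] at h2
    rw [Rt.neg_val] at h3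
    linarith

theorem Ul_eq (hC : SimplyLaced C) (l : Fin r → ℤ) (k : ℕ) :
    Ul C K l k = GT K hC {γ | γ ∈ {γ : Rt C | 0 < ip C γ.1 l} ∧ (k : ℤ) ≤ ht γ} := by
  unfold Ul GT
  congr 1
  ext g
  constructor
  · rintro ⟨β, a, h1, h2, h3⟩
    exact ⟨β, ⟨h1, h2⟩, a, eq_xg hC β a g h3⟩
  · rintro ⟨β, ⟨h1, h2⟩, a, rfl⟩
    exact ⟨β, a, h1, h2, fun v => rfl⟩

end

theorem car (hA : RelAStmt) (hB : RelBStmt) (hS : RootSignStmt) (hF : RootFinStmt) :
    CarStmt := by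
  intro r C hC K _ l hl k
  set Φ : Set (Rt C) := {γ : Rt C | 0 < ip C γ.1 l} with hΦdef
  have hpos : ∀ β ∈ Φ, β.Pos := fun β h => pos_of_dom hS hC hl h
  have hΦ : ∀ β ∈ Φ, ∀ γ ∈ Φ, ∀ δ : Rt C, δ.1 = β.1 + γ.1 → δ ∈ Φ := by
    intro β h1 γ h2 δ h
    show 0 < ip C δ.1 l
    rw [h, ip_add_left]
    exact add_pos h1 h2
  have hT : ∀ k : ℕ, ∀ γ ∈ {γ | γ ∈ Φ ∧ (k : ℤ) ≤ ht γ}, γ.Pos := fun k γ h => hpos γ h.1
  refine ⟨?_, ?_, ?_⟩
  · intro u hu β hβ hk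
    rw [Ul_eq hC] at hu
    obtain ⟨-, c, -, h⟩ := GT_EE hS hC (hT k) (hpos β hβ) (fun γ h => by rw [hk]; exact h.2) u hu
    exact ⟨c, funext h⟩
  · intro u hu h0
    rw [Ul_eq hC] at hu ⊢
    rcases Nat.eq_zero_or_pos k with rfl | hk
    · refine GT_mono hC ?_ hu
      rintro γ ⟨h1, -⟩
      refine ⟨h1, ?_⟩
      have := one_le_ht (hpos γ h1)
      push_cast
      omega
    · have : Finite (Rt C) := hF r C hC
      have hu2 : u ∈ GT K hC ({γ | γ ∈ Φ ∧ ht γ = k} ∪ {γ | γ ∈ Φ ∧ (k : ℤ) + 1 ≤ ht γ}) := by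
        refine GT_mono hC ?_ hu
        rintro γ ⟨h1, h2⟩
        by_cases h3 : ht γ = k
        · exact Or.inl ⟨h1, h3⟩
        · exact Or.inr ⟨h1, by omega⟩
      have h3 := descend hA hB hS hC Φ hpos hΦ hk {γ | γ ∈ Φ ∧ ht γ = k} (Set.toFinite _)
        (fun β h => h) u hu2 (fun β h => h0 β h.1 h.2)
      refine GT_mono hC ?_ h3
      rintro γ ⟨h1, h2⟩
      exact ⟨h1, by push_cast; exact h2⟩
  · intro s hs u hu β hβ hk
    rw [Ul_eq hC] at hs hu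
    obtain ⟨b1, -⟩ := GT_EE hS hC (hT k) (hpos β hβ) (fun γ h => by rw [hk]; exact h.2) u hu
    obtain ⟨e1, e2⟩ := (bor_GT hS hC (hT 0) s hs _ b1).1
    have e : (s * u).1 (EE β.neg) = s.1 (EE β.neg) + s.1 (u.1 (EE β.neg) - EE β.neg) := by
      rw [← map_add]
      show s.1 (u.1 (EE β.neg)) = _
      congr 1
      abel
    rw [e, Prod.fst_add, e2, Prod.fst_sub, EE_fst, sub_zero]

end Pool.Agent.DEN.H81
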